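import Pool.Agent.Y218.ThetaFinal

/-!
MP_2bf81a_ag: the theta map `Th : A_g(2,4) → P^(2^g-1)` is not an embedding when `g ≥ 4`.
-/

namespace Pool.Agent.Results.MP_2bf81a_ag.ThetaMapNotEmbedding

open Pool.Agent.Y218

theorem result (g : ℕ) (hg : 4 ≤ g) :
    ∃ t ∈ siegel g, theta2 t ≠ 0 ∧ ¬ IsoOntoImageAt t :=
  theta_map_final g hg

end Pool.Agent.Results.MP_2bf81a_ag.ThetaMapNotEmbedding
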